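import Mathlib

/-!
# Alternating forms with values in `ℚ/ℤ` and central extensions

For a group `P` of class two and a character `l` of its centre, the alternating form
`l([x,y])` is the coboundary of a function on `P`.
-/

namespace Pool.Agent.Run7.h293.TP

open scoped commutatorElement

/-- `ℚ/ℤ`. -/
abbrev QZ : Type := AddCircle (1 : ℚ)

/-- Alternating bi-additive forms on a group with values in `ℚ/ℤ`. -/
structure Alt (P : Type*) [Group P] where
  B : P → P → QZ
  mul_left : ∀ x y z, B (x * y) z = B x z + B y z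
  mul_right : ∀ x y z, B x (y * z) = B x y + B x z
  self : ∀ x, B x x = 0

namespace Alt

variable {P : Type*} [Group P] (β : Alt P)

theorem one_left (z : P) : β.B 1 z = 0 := by
  have h := β.mul_left 1 1 z
  rw [one_mul] at h
  exact left_eq_add.mp h

theorem one_right (z : P) : β.B z 1 = 0 := by
  have h := β.mul_right z 1 1
  rw [one_mul] at h
  exact left_eq_add.mp h

theorem inv_left (x z : P) : β.B x⁻¹ z = - β.B x z := by
  have h := β.mul_left x⁻¹ x z
  rw [inv_mul_cancel, β.one_left] at h
  exact eq_neg_of_add_eq_zero_left h.symm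

theorem inv_right (x z : P) : β.B z x⁻¹ = - β.B z x := by
  have h := β.mul_right z x⁻¹ x
  rw [inv_mul_cancel, β.one_right] at h
  exact eq_neg_of_add_eq_zero_left h.symm

theorem swap (x y : P) : β.B y x = - β.B x y := by
  have h := β.self (x * y)
  rw [β.mul_left, β.mul_right, β.mul_right, β.self, β.self, zero_add, add_zero] at h
  exact eq_neg_of_add_eq_zero_right h

end Alt

/-- The group `P × ℚ/ℤ` with the law `(x,a)(y,b) = (xy, a + b - B(x,y))`. -/
@[ext]
structure Tw {P : Type*} [Group P] (β : Alt P) where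
  x : P
  a : QZ

namespace Tw

variable {P : Type*} [Group P] {β : Alt P}

instance : Mul (Tw β) := ⟨fun u v => ⟨u.x * v.x, u.a + v.a - β.B u.x v.x⟩⟩
instance : One (Tw β) := ⟨⟨1, 0⟩⟩
instance : Inv (Tw β) := ⟨fun u => ⟨u.x⁻¹, -u.a⟩⟩

@[simp] theorem mul_x (u v : Tw β) : (u * v).x = u.x * v.x := rfl
@[simp] theorem mul_a (u v : Tw β) : (u * v).a = u.a + v.a - β.B u.x v.x := rfl
@[simp] theorem one_x : (1 : Tw β).x = 1 := rfl
@[simp] theorem one_a : (1 : Tw β).a = 0 := rfl
@[simp] theorem inv_x (u : Tw β) : (u⁻¹).x = u.x⁻¹ := rfl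
@[simp] theorem inv_a (u : Tw β) : (u⁻¹).a = -u.a := rfl

instance : Group (Tw β) := Group.ofLeftAxioms
  (by
    intro u v w
    ext
    · simp [mul_assoc]
    · simp only [mul_a, mul_x, β.mul_left, β.mul_right]
      abel)
  (by
    intro u
    ext
    · simp
    · simp [β.one_left])
  (by
    intro u
    ext
    · simp
    · simp [β.inv_left, β.self])

theorem commutator_eq (u v : Tw β) : ⁅u, v⁆ = ⟨⁅u.x, v.x⁆, -(β.B u.x v.x + β.B u.x v.x)⟩ := by
  ext
  · simp [commutatorElement_def]
  · simp only [commutatorElement_def, mul_a, mul_x, inv_x, inv_a, β.mul_left, β.inv_right,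
      β.inv_left, β.self, β.swap u.x v.x]
    abel

end Tw

variable {P : Type*} [Group P]

/-- The form `l([x,y])`. -/
noncomputable def commForm (hP : ∀ x y : P, ⁅x, y⁆ ∈ Subgroup.center P)
    (l : Additive (Subgroup.center P) →+ QZ) : Alt P where
  B x y := l (Additive.ofMul ⟨⁅x, y⁆, hP x y⟩)
  mul_left x y z := by
    rw [← map_add]
    congr 1
    apply Additive.toMul.injective
    apply Subtype.ext
    change ⁅x * y, z⁆ = ⁅x, z⁆ * ⁅y, z⁆
    rw [commutatorElement_mul_left_eq_conj_mul,
      (Subgroup.mem_center_iff.mp (hP y z) x), mul_inv_cancel_right,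
      (Subgroup.mem_center_iff.mp (hP y z) ⁅x, z⁆)]
  mul_right x y z := by
    rw [← map_add]
    congr 1
    apply Additive.toMul.injective
    apply Subtype.ext
    change ⁅x, y * z⁆ = ⁅x, y⁆ * ⁅x, z⁆
    rw [commutatorElement_mul_right_eq_mul_conj, mul_assoc ⁅x, y⁆ y,
      (Subgroup.mem_center_iff.mp (hP x z) y), mul_assoc, mul_assoc, mul_inv_cancel, mul_one]
  self x := by
    have : (Additive.ofMul (⟨⁅x, x⁆, hP x x⟩ : Subgroup.center P)) = 0 := by
      apply Additive.toMul.injective
      apply Subtype.ext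
      change ⁅x, x⁆ = 1
      simp
    rw [this, map_zero]

/-- For `P` of class two and a character `l` of the centre, the form `l([x,y])` is a coboundary. -/
theorem exists_cochain (hP : ∀ x y : P, ⁅x, y⁆ ∈ Subgroup.center P)
    (l : Additive (Subgroup.center P) →+ QZ) :
    ∃ f : P → QZ, ∀ x y, f x + f y - f (x * y) = (commForm hP l).B x y := by
  set β := commForm hP l with hβ
  -- the subgroup of all `(z, -2 l(z))`
  let K : Subgroup (Tw β) :=
    { carrier := {u | ∃ h : u.x ∈ Subgroup.center P,
        u.a = -(l (Additive.ofMul ⟨u.x, h⟩) + l (Additive.ofMul ⟨u.x, h⟩))}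
      one_mem' := by
        refine ⟨Subgroup.one_mem _, ?_⟩
        have : (Additive.ofMul (⟨(1 : Tw β).x, Subgroup.one_mem _⟩ : Subgroup.center P)) = 0 := rfl
        rw [this, map_zero]
        simp
      mul_mem' := by
        rintro u v ⟨hu, eu⟩ ⟨hv, ev⟩
        refine ⟨Subgroup.mul_mem _ hu hv, ?_⟩
        have h1 : (Additive.ofMul (⟨(u * v).x, Subgroup.mul_mem _ hu hv⟩ : Subgroup.center P)) =
          Additive.ofMul (⟨u.x, hu⟩ : Subgroup.center P) +
          Additive.ofMul (⟨v.x, hv⟩ : Subgroup.center P) := rfl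
        have h2 : β.B u.x v.x = 0 := by
          have : (Additive.ofMul (⟨⁅u.x, v.x⁆, hP u.x v.x⟩ : Subgroup.center P)) = 0 := by
            apply Additive.toMul.injective
            apply Subtype.ext
            change ⁅u.x, v.x⁆ = 1
            rw [commutatorElement_eq_one_iff_mul_comm]
            exact Subgroup.mem_center_iff.mp hv u.x
          change l _ = 0
          rw [this, map_zero]
        rw [h1, map_add, Tw.mul_a, h2, eu, ev]
        abel
      inv_mem' := by
        rintro u ⟨hu, eu⟩
        refine ⟨Subgroup.inv_mem _ hu, ?_⟩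
        have h1 : (Additive.ofMul (⟨(u⁻¹).x, Subgroup.inv_mem _ hu⟩ : Subgroup.center P)) =
          - Additive.ofMul (⟨u.x, hu⟩ : Subgroup.center P) := rfl
        rw [h1, map_neg, Tw.inv_a, eu]
        abel }
  have hK : commutator (Tw β) ≤ K := by
    rw [commutator_def, Subgroup.commutator_le]
    intro u _ v _
    rw [Tw.commutator_eq]
    exact ⟨hP u.x v.x, rfl⟩
  let j : QZ →+ Additive (Abelianization (Tw β)) :=
    { toFun := fun a => Additive.ofMul (Abelianization.of (⟨1, a⟩ : Tw β))
      map_zero' := by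
        change Additive.ofMul (Abelianization.of (1 : Tw β)) = 0
        rw [map_one]; rfl
      map_add' := by
        intro a b
        rw [← ofMul_mul, ← map_mul]
        congr 2
        ext
        · simp
        · simp [β.one_left] }
  have hj : Function.Injective j := by
    rw [injective_iff_map_eq_zero]
    intro a ha
    have h1 : Abelianization.of (⟨1, a⟩ : Tw β) = 1 := ha
    have h2 : (⟨1, a⟩ : Tw β) ∈ commutator (Tw β) := by
      rw [← Abelianization.ker_of]
      exact h1
    obtain ⟨h3, h4⟩ := hK h2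
    have h5 : (Additive.ofMul (⟨(1 : P), h3⟩ : Subgroup.center P)) = 0 := rfl
    change a = -(l (Additive.ofMul (⟨(1 : P), h3⟩ : Subgroup.center P)) +
      l (Additive.ofMul (⟨(1 : P), h3⟩ : Subgroup.center P))) at h4
    rw [h5, map_zero] at h4
    simpa using h4
  obtain ⟨r, hr⟩ := (Module.Baer.of_divisible QZ).extension_property_addMonoidHom j hj
    (AddMonoidHom.id QZ)
  refine ⟨fun x => - r (Additive.ofMul (Abelianization.of (⟨x, 0⟩ : Tw β))), fun x y => ?_⟩
  have h1 : (Additive.ofMul (Abelianization.of (⟨x, 0⟩ : Tw β))) +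
      (Additive.ofMul (Abelianization.of (⟨y, 0⟩ : Tw β))) =
      Additive.ofMul (Abelianization.of (⟨x * y, 0⟩ : Tw β)) + j (-(β.B x y)) := by
    change Additive.ofMul _ + Additive.ofMul _ = Additive.ofMul _ + Additive.ofMul _
    rw [← ofMul_mul, ← map_mul, ← ofMul_mul, ← map_mul]
    congr 2
    ext
    · simp
    · simp [β.one_right]
  have h2 := congrArg r h1
  rw [map_add, map_add] at h2
  have h3 : r (j (-(β.B x y))) = -(β.B x y) := by
    have := congrArg (fun φ : QZ →+ QZ => φ (-(β.B x y))) hr
    simpa using this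
  rw [h3] at h2
  have h4 : β.B x y = r (Additive.ofMul (Abelianization.of (⟨x * y, 0⟩ : Tw β))) -
      (r (Additive.ofMul (Abelianization.of (⟨x, 0⟩ : Tw β))) +
      r (Additive.ofMul (Abelianization.of (⟨y, 0⟩ : Tw β)))) := by
    rw [h2]; abel
  change - r _ + - r _ - - r _ = β.B x y
  rw [h4]; abel

end Pool.Agent.Run7.h293.TP
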