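import Pool.Agent.Run7.h293.TP.Cochain

/-!
# Nilpotent quotients of topological groups with bounded cup product kernel
-/

namespace Pool.Agent.Run7.h293.TP

open scoped commutatorElement Topology IsMulCommutative

/-- Pull back of an alternating form. -/
def Alt.comap {U P : Type*} [Group U] [Group P] (φ : U →* P) (β : Alt P) : Alt U where
  B x y := β.B (φ x) (φ y)
  mul_left x y z := by rw [map_mul, β.mul_left]
  mul_right x y z := by rw [map_mul, β.mul_right]
  self x := β.self _

/-- Every alternating form with values in `ℚ/ℤ` on a discrete quotient `U/V` of `U` which is a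
coboundary is killed by `d`. -/
def CupBounded (U : Type*) [Group U] [TopologicalSpace U] (d : ℕ) : Prop :=
  ∀ V : Subgroup U, V.Normal → IsOpen (V : Set U) → ∀ (β : Alt U) (f : U → QZ),
    (∀ v ∈ V, ∀ g, β.B v g = 0) → (∀ g, ∀ v ∈ V, f (g * v) = f g) →
    (∀ g h, f g + f h - f (g * h) = β.B g h) → ∀ g h, d • β.B g h = 0

theorem eq_zero_of_hom {A : Type*} [AddCommGroup A] (a : A) (h : ∀ l : A →+ QZ, l a = 0) :
    a = 0 :=
  CharacterModule.eq_zero_of_character_apply h

section
variable {U : Type*} [Group U]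

theorem comm_pow {G : Type*} [Group G] {a b : G} (h : ⁅a, b⁆ ∈ Subgroup.center G) (n : ℕ) :
    ⁅a ^ n, b⁆ = ⁅a, b⁆ ^ n := by
  induction n with
  | zero => simp
  | succ n ih =>
    rw [pow_succ, commutatorElement_mul_left_eq_conj_mul, (Subgroup.mem_center_iff.mp h (a ^ n)),
      mul_inv_cancel_right, ih, pow_succ']

theorem center_mk {W : Subgroup U} [W.Normal] {c : U} (h : ∀ z, ⁅c, z⁆ ∈ W) :
    (QuotientGroup.mk' W c) ∈ Subgroup.center (U ⧸ W) := by
  rw [Subgroup.mem_center_iff]
  intro g
  obtain ⟨z, rfl⟩ := QuotientGroup.mk'_surjective W g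
  have h1 : ⁅QuotientGroup.mk' W c, QuotientGroup.mk' W z⁆ = 1 := by
    rw [← map_commutatorElement, QuotientGroup.mk'_apply, QuotientGroup.eq_one_iff]
    exact h z
  exact (commutatorElement_eq_one_iff_mul_comm.mp h1).symm

end

variable {U : Type*} [Group U] [TopologicalSpace U] {d : ℕ}

/-- Commutators in a discrete quotient of class two have order dividing `d`. -/
theorem step1 (hd : CupBounded U d) (W : Subgroup U) (hW : W.Normal) (hWo : IsOpen (W : Set U))
    (h : ∀ x y z : U, ⁅⁅x, y⁆, z⁆ ∈ W) (x y : U) : ⁅x, y⁆ ^ d ∈ W := by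
  have hP : ∀ a b : U ⧸ W, ⁅a, b⁆ ∈ Subgroup.center (U ⧸ W) := by
    intro a b
    obtain ⟨a, rfl⟩ := QuotientGroup.mk'_surjective W a
    obtain ⟨b, rfl⟩ := QuotientGroup.mk'_surjective W b
    rw [← map_commutatorElement]
    exact center_mk (h a b)
  set c : Subgroup.center (U ⧸ W) :=
    ⟨⁅QuotientGroup.mk' W x, QuotientGroup.mk' W y⁆, hP _ _⟩ with hc
  have h1 : d • (Additive.ofMul c) = 0 := by
    refine eq_zero_of_hom (A := Additive (Subgroup.center (U ⧸ W))) _ fun l => ?_
    obtain ⟨f, hf⟩ := exists_cochain hP l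
    have h2 := hd W hW hWo ((commForm hP l).comap (QuotientGroup.mk' W))
      (fun g => f (QuotientGroup.mk' W g)) ?_ ?_ ?_ x y
    · change l (d • Additive.ofMul c) = 0
      rw [map_nsmul]
      exact h2
    · intro v hv g
      have : QuotientGroup.mk' W v = 1 := by
        rw [QuotientGroup.mk'_apply, QuotientGroup.eq_one_iff]; exact hv
      change (commForm hP l).B (QuotientGroup.mk' W v) _ = 0
      rw [this, Alt.one_left]
    · intro g v hv
      have : QuotientGroup.mk' W v = 1 := by
        rw [QuotientGroup.mk'_apply, QuotientGroup.eq_one_iff]; exact hv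
      change f (QuotientGroup.mk' W (g * v)) = _
      rw [map_mul, this, mul_one]
    · intro g k
      change _ + _ - f (QuotientGroup.mk' W (g * k)) = _
      rw [map_mul]
      exact hf _ _
  have h3 : c ^ d = 1 := h1
  have h4 : (⁅QuotientGroup.mk' W x, QuotientGroup.mk' W y⁆) ^ d = 1 := congrArg Subtype.val h3
  rw [← map_commutatorElement, ← map_pow, QuotientGroup.mk'_apply, QuotientGroup.eq_one_iff] at h4
  exact h4

/-- Central elements killed by `d`. -/
def centralTorsion (P : Type*) [Group P] (d : ℕ) : Subgroup P where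
  carrier := {c | c ∈ Subgroup.center P ∧ c ^ d = 1}
  one_mem' := ⟨Subgroup.one_mem _, one_pow _⟩
  mul_mem' := by
    rintro a b ⟨ha, ha'⟩ ⟨hb, hb'⟩
    refine ⟨Subgroup.mul_mem _ ha hb, ?_⟩
    have : Commute a b := (Subgroup.mem_center_iff.mp hb a)
    rw [this.mul_pow, ha', hb', one_mul]
  inv_mem' := by
    rintro a ⟨ha, ha'⟩
    refine ⟨Subgroup.inv_mem _ ha, ?_⟩
    rw [inv_pow, ha', inv_one]

theorem isOpen_sup {A V : Subgroup U} [ContinuousMul U] (hV : IsOpen (V : Set U)) :
    IsOpen ((A ⊔ V : Subgroup U) : Set U) :=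
  Subgroup.isOpen_mono le_sup_right hV

theorem step2 [ContinuousMul U] (hd : CupBounded U d) (V : Subgroup U) (hV : V.Normal)
    (hVo : IsOpen (V : Set U)) (i : ℕ) :
    ∀ x ∈ (⊤ : Subgroup U).lowerCentralSeries (i + 1),
      x ^ d ∈ (⊤ : Subgroup U).lowerCentralSeries (i + 2) ⊔ V := by
  induction i with
  | zero =>
    set W : Subgroup U := (⊤ : Subgroup U).lowerCentralSeries 2 ⊔ V with hW
    have hWn : W.Normal := by rw [hW]; infer_instance
    have key : ∀ x y z : U, ⁅⁅x, y⁆, z⁆ ∈ W := fun x y z =>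
      Subgroup.mem_sup_left (Subgroup.commutator_mem_commutator
        (Subgroup.commutator_mem_commutator (Subgroup.mem_top x) (Subgroup.mem_top y))
        (Subgroup.mem_top z))
    have h1 : (⊤ : Subgroup U).lowerCentralSeries (0 + 1) ≤
        (centralTorsion (U ⧸ W) d).comap (QuotientGroup.mk' W) := by
      rw [Subgroup.lowerCentralSeries_succ, Subgroup.commutator_le]
      intro a _ b _
      refine ⟨center_mk (key a b), ?_⟩
      rw [← map_pow, QuotientGroup.mk'_apply, QuotientGroup.eq_one_iff]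
      exact step1 hd W hWn (isOpen_sup hVo) key a b
    intro x hx
    have h2 := (h1 hx).2
    rw [← map_pow, QuotientGroup.mk'_apply, QuotientGroup.eq_one_iff] at h2
    exact h2
  | succ k ih =>
    set W : Subgroup U := (⊤ : Subgroup U).lowerCentralSeries (k + 1 + 2) ⊔ V with hW
    have hWn : W.Normal := by rw [hW]; infer_instance
    have h1 : (⊤ : Subgroup U).lowerCentralSeries (k + 1 + 1) ≤
        (centralTorsion (U ⧸ W) d).comap (QuotientGroup.mk' W) := by
      rw [Subgroup.lowerCentralSeries_succ, Subgroup.commutator_le]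
      intro a ha b _
      have hab : ∀ z, ⁅⁅a, b⁆, z⁆ ∈ W := fun z =>
        Subgroup.mem_sup_left (Subgroup.commutator_mem_commutator
          (Subgroup.commutator_mem_commutator ha (Subgroup.mem_top b)) (Subgroup.mem_top z))
      refine ⟨center_mk hab, ?_⟩
      have h3 : ⁅QuotientGroup.mk' W a, QuotientGroup.mk' W b⁆ ∈ Subgroup.center (U ⧸ W) := by
        rw [← map_commutatorElement]; exact center_mk hab
      rw [map_commutatorElement, ← comm_pow h3, ← map_pow]
      have h4 := ih a ha
      have h5 : a ^ d ∈ (((⊤ : Subgroup U).lowerCentralSeries (k + 2) ⊔ V : Subgroup U) :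
        Set U) := h4
      rw [Subgroup.mul_normal] at h5
      obtain ⟨u, hu, v, hv, huv⟩ := h5
      have h6 : QuotientGroup.mk' W (a ^ d) = QuotientGroup.mk' W u := by
        rw [← huv]
        change QuotientGroup.mk' W (u * v) = _
        have : QuotientGroup.mk' W v = 1 := by
          rw [QuotientGroup.mk'_apply, QuotientGroup.eq_one_iff]
          exact Subgroup.mem_sup_right hv
        rw [map_mul, this, mul_one]
      rw [h6, ← map_commutatorElement, QuotientGroup.mk'_apply, QuotientGroup.eq_one_iff]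
      exact Subgroup.mem_sup_left (Subgroup.commutator_mem_commutator hu (Subgroup.mem_top b))
    intro x hx
    have h2 := (h1 hx).2
    rw [← map_pow, QuotientGroup.mk'_apply, QuotientGroup.eq_one_iff] at h2
    exact h2

theorem step3 [ContinuousMul U] (hd : CupBounded U d) (V : Subgroup U) (hV : V.Normal)
    (hVo : IsOpen (V : Set U)) (k : ℕ) :
    ∀ x ∈ (⊤ : Subgroup U).lowerCentralSeries 1 ⊔ V,
      x ^ (d ^ k) ∈ (⊤ : Subgroup U).lowerCentralSeries (k + 1) ⊔ V := by
  induction k with
  | zero => intro x hx; simpa using hx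
  | succ k ih =>
    intro x hx
    have h1 : x ^ (d ^ k) ∈ (((⊤ : Subgroup U).lowerCentralSeries (k + 1) ⊔ V : Subgroup U) :
        Set U) := ih x hx
    rw [Subgroup.mul_normal] at h1
    obtain ⟨u, hu, v, hv, huv⟩ := h1
    set W : Subgroup U := (⊤ : Subgroup U).lowerCentralSeries (k + 1 + 1) ⊔ V with hW
    have hWn : W.Normal := by rw [hW]; infer_instance
    have h2 := step2 hd V hV hVo k u hu
    have h3 : QuotientGroup.mk' W (x ^ (d ^ k)) = QuotientGroup.mk' W u := by
      rw [← huv]
      change QuotientGroup.mk' W (u * v) = _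
      have : QuotientGroup.mk' W v = 1 := by
        rw [QuotientGroup.mk'_apply, QuotientGroup.eq_one_iff]
        exact Subgroup.mem_sup_right hv
      rw [map_mul, this, mul_one]
    rw [pow_succ, pow_mul, ← QuotientGroup.eq_one_iff, ← QuotientGroup.mk'_apply, map_pow, h3,
      ← map_pow, QuotientGroup.mk'_apply, QuotientGroup.eq_one_iff]
    exact h2

/-- `U` has a basis of neighbourhoods of `1` of open normal subgroups. -/
def NormalBasis (U : Type*) [Group U] [TopologicalSpace U] : Prop :=
  ∀ W ∈ 𝓝 (1 : U), ∃ V : Subgroup U, V.Normal ∧ IsOpen (V : Set U) ∧ (V : Set U) ⊆ W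

theorem mem_of_forall [ContinuousMul U] (hb : NormalBasis U) (N : Subgroup U)
    (hNc : IsClosed (N : Set U)) {x : U}
    (h : ∀ V : Subgroup U, V.Normal → IsOpen (V : Set U) → x ∈ N ⊔ V) : x ∈ N := by
  by_contra hx
  have h1 : {v : U | x * v ∈ ((N : Set U)ᶜ)} ∈ 𝓝 (1 : U) := by
    apply (continuous_const_mul x).continuousAt.preimage_mem_nhds
    apply hNc.isOpen_compl.mem_nhds
    simpa using hx
  obtain ⟨V, hV, hVo, hVW⟩ := hb _ h1
  have h2 : x ∈ ((N ⊔ V : Subgroup U) : Set U) := h V hV hVo
  rw [Subgroup.mul_normal] at h2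
  obtain ⟨n, hn, v, hv, hnv⟩ := h2
  have h3 := hVW (V.inv_mem hv)
  apply h3
  have h4 : n * v = x := hnv
  change x * v⁻¹ ∈ N
  rw [← h4, mul_inv_cancel_right]
  exact hn

/-- Closed normal subgroup with quotient of class at most `c + 1`: commutators have order dividing
`d ^ c`. -/
theorem pow_mem [ContinuousMul U] (hb : NormalBasis U) (hd : CupBounded U d) (N : Subgroup U)
    (hN : N.Normal) (hNc : IsClosed (N : Set U)) (c : ℕ)
    (hc : (⊤ : Subgroup (U ⧸ N)).lowerCentralSeries (c + 1) = ⊥) (x : U ⧸ N)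
    (hx : x ∈ commutator (U ⧸ N)) : x ^ (d ^ c) = 1 := by
  have hL : (⊤ : Subgroup U).lowerCentralSeries (c + 1) ≤ N := by
    have h1 : ((⊤ : Subgroup U).lowerCentralSeries (c + 1)).map (QuotientGroup.mk' N) = ⊥ := by
      rw [Subgroup.map_lowerCentralSeries, Subgroup.map_top_of_surjective _
        (QuotientGroup.mk'_surjective N), hc]
    rw [Subgroup.map_eq_bot_iff, QuotientGroup.ker_mk'] at h1
    exact h1
  have hx' : x ∈ ((⊤ : Subgroup U).lowerCentralSeries 1).map (QuotientGroup.mk' N) := by
    rw [Subgroup.map_lowerCentralSeries, Subgroup.map_top_of_surjective _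
        (QuotientGroup.mk'_surjective N)]
    exact hx
  obtain ⟨y, hy, rfl⟩ := hx'
  rw [← map_pow, QuotientGroup.mk'_apply, QuotientGroup.eq_one_iff]
  apply mem_of_forall hb N hNc
  intro V hV hVo
  have hNV : (N ⊔ V).Normal := inferInstance
  have h2 := step3 hd (N ⊔ V) hNV (isOpen_sup hVo) c y (Subgroup.mem_sup_left hy)
  exact (sup_le (hL.trans le_sup_left) le_rfl : _ ≤ N ⊔ V) h2

/-- Closed normal subgroup such that the quotient is nilpotent without elements of order dividing
`d`: the quotient is commutative. -/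
theorem comm_mem_of_nilpotent [ContinuousMul U] (hb : NormalBasis U) (hd : CupBounded U d)
    (N : Subgroup U) (hN : N.Normal) (hNc : IsClosed (N : Set U))
    (hnil : Group.IsNilpotent (U ⧸ N)) (htor : ∀ y : U ⧸ N, y ^ d = 1 → y = 1) (a b : U) :
    ⁅a, b⁆ ∈ N := by
  obtain ⟨c, hc⟩ := (Subgroup.nilpotent_iff_lowerCentralSeries).mp hnil
  have hc' : (⊤ : Subgroup (U ⧸ N)).lowerCentralSeries (c + 1) = ⊥ := by
    rw [eq_bot_iff, ← hc]
    exact Subgroup.lowerCentralSeries_antitone _ (Nat.le_succ c)
  have h1 : QuotientGroup.mk' N ⁅a, b⁆ ∈ commutator (U ⧸ N) := by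
    rw [map_commutatorElement]
    exact Subgroup.commutator_mem_commutator (Subgroup.mem_top _) (Subgroup.mem_top _)
  have h2 := pow_mem hb hd N hN hNc c hc' _ h1
  have h3 : ∀ k : ℕ, ∀ y : U ⧸ N, y ^ (d ^ k) = 1 → y = 1 := by
    intro k
    induction k with
    | zero => intro y hy; simpa using hy
    | succ k ih =>
      intro y hy
      rw [pow_succ, pow_mul] at hy
      exact ih y (htor _ hy)
  have h4 := h3 c _ h2
  rw [QuotientGroup.mk'_apply, QuotientGroup.eq_one_iff] at h4
  exact h4

end Pool.Agent.Run7.h293.TP
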