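import Pool.Agent.Run7.h293.TP.Series

/-!
# Varieties with surjective Albanese map and their tempered fundamental groups
-/

namespace Pool.Agent.Run7.h293.TP

open scoped commutatorElement Topology IsMulCommutative

/-- The group `ℚ/ℤ`, written multiplicatively (the roots of unity). -/
def Mu : Type := Multiplicative (AddCircle (1 : ℚ))

noncomputable instance : CommGroup Mu := Multiplicative.commGroup

/-- The identity map from `ℚ/ℤ` to its multiplicative version. -/
def toMu (x : QZ) : Mu := Multiplicative.ofAdd x

theorem toMu_add (x y : QZ) : toMu (x + y) = toMu x * toMu y := rfl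

/-- Alternating bi-multiplicative maps `U × U → Mu`. -/
structure Alternating {U : Type*} [Group U] (B : U → U → Mu) : Prop where
  mul_left : ∀ x y z, B (x * y) z = B x z * B y z
  mul_right : ∀ x y z, B x (y * z) = B x y * B x z
  self : ∀ x, B x x = 1

/-- The two-cocycle `B` is the coboundary of a function on a discrete quotient of `U`. -/
def IsCoboundary {U : Type*} [Group U] [TopologicalSpace U] (B : U → U → Mu) : Prop :=
  ∃ V : Subgroup U, V.Normal ∧ IsOpen (V : Set U) ∧ (∀ v ∈ V, ∀ g, B v g = 1) ∧
    ∃ f : U → Mu, (∀ g, ∀ v ∈ V, f (g * v) = f g) ∧ ∀ g h, f g * f h = B g h * f (g * h)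

/-- The discrete quotients of `U` are finitely generated. -/
def DiscreteFG (U : Type*) [Group U] [TopologicalSpace U] : Prop :=
  ∀ V : Subgroup U, V.Normal → IsOpen (V : Set U) →
    ∃ S : Finset U, Subgroup.closure (S : Set U) ⊔ V = ⊤

/-- The map of fundamental groups defined by the Albanese map `Y → A`, `U = π₁^temp(Y)`. -/
structure AlbHom (U : Type*) [Group U] [TopologicalSpace U] where
  /-- the étale fundamental group of `A` -/
  Λ : Type
  [gΛ : Group Λ]
  [tΛ : TopologicalSpace Λ]
  /-- the map of fundamental groups defined by `Y → A` -/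
  α : U →* Λ
  /-- the order of the torsion subgroup of `H₁(Y, Ẑ)` -/
  t : ℕ
  t_pos : 0 < t
  /-- the kernel of the surjection `H₁(Y, Ẑ) → H₁(A, Ẑ) = Λ` is the torsion subgroup, so the
  `t`-th power of a continuous character of `U` of finite order comes from a finite quotient
  of `Λ` -/
  torsion : ∀ φ : U →* Mu, IsOpen (φ.ker : Set U) →
    ∃ L : Subgroup Λ, L.FiniteIndex ∧ IsOpen (L : Set Λ) ∧ ∀ x, α x ∈ L → φ x ^ t = 1

attribute [instance] AlbHom.gΛ AlbHom.tΛ

/-- Alternating forms on `Λ = π₁^et(A)` with values in `ℚ/ℤ` (through a finite quotient of `Λ`),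
as functions on `U`. -/
def IsForm {U : Type*} [Group U] [TopologicalSpace U] (a : AlbHom U) (B : U → U → Mu) : Prop :=
  Alternating B ∧
    ∃ L : Subgroup a.Λ, L.FiniteIndex ∧ IsOpen (L : Set a.Λ) ∧ ∀ x, a.α x ∈ L → ∀ y, B x y = 1

/-- Second cohomology groups with coefficients `ℚ/ℤ` of `A`, of `Y` and of a resolution `Z` of a
closed subvariety of `Y` which is generically finite of degree `e` over `A`. -/
structure AlbCoh {U : Type*} [Group U] [TopologicalSpace U] (a : AlbHom U) where
  /-- the degree of `Z → A` -/
  e : ℕ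
  e_pos : 0 < e
  /-- `H²(A, ℚ/ℤ)` (étale cohomology) -/
  HA : Type
  /-- `H²(Y, ℚ/ℤ)` -/
  HY : Type
  /-- `H²(Z, ℚ/ℤ)` -/
  HZ : Type
  [gA : CommGroup HA]
  [gY : CommGroup HY]
  [gZ : CommGroup HZ]
  /-- pull back along `Y → A` -/
  pull : HA →* HY
  /-- pull back along `Z → Y` -/
  res : HY →* HZ
  /-- trace along the generically finite map `Z → A` -/
  tr : HZ →* HA
  tr_res_pull : ∀ x, tr (res (pull x)) = x ^ e
  /-- the class of an alternating form -/
  cl : (U → U → Mu) → HA
  /-- `cl` is an isomorphism of the group of alternating forms on `Λ` onto `H²(A, ℚ/ℤ)`; only this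
  consequence of injectivity is used -/
  cl_pow : ∀ B, IsForm a B → ∀ n : ℕ, cl B ^ n = 1 → ∀ x y, B x y ^ n = 1
  /-- the pull back to `Y` of the square of the class of the form `B` is the class of the
  two-cocycle `B` of the group `U`; it vanishes if `B` is a coboundary -/
  pull_coboundary : ∀ B, IsForm a B → IsCoboundary B → pull (cl B ^ 2) = 1

attribute [instance] AlbCoh.gA AlbCoh.gY AlbCoh.gZ

/-- What is known about the tempered fundamental group `U` of a smooth projective variety `Y`
whose Albanese map `Y → A` is surjective. -/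
structure AlbaneseData (U : Type*) [Group U] [TopologicalSpace U] where
  hom : AlbHom U
  coh : AlbCoh hom

variable {U : Type*} [Group U] [TopologicalSpace U]

theorem exists_level [ContinuousMul U] (a : AlbHom U) (V : Subgroup U)
    (hVo : IsOpen (V : Set U)) (β : Alt U) (hβ : ∀ v ∈ V, ∀ g, β.B v g = 0) (S : Finset U) :
    ∃ L : Subgroup a.Λ, L.FiniteIndex ∧ IsOpen (L : Set a.Λ) ∧
      ∀ x, a.α x ∈ L → ∀ s ∈ S, a.t • β.B x s = 0 := by
  classical
  induction S using Finset.induction_on with
  | empty => exact ⟨⊤, inferInstance, isOpen_univ, fun _ _ _ h => absurd h (Finset.notMem_empty _)⟩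
  | insert s S hs ih =>
    obtain ⟨L, hL, hLo, h⟩ := ih
    let φ : U →* Mu :=
      { toFun := fun x => toMu (β.B x s)
        map_one' := by rw [β.one_left]; rfl
        map_mul' := fun x y => by rw [β.mul_left]; rfl }
    have hφ : IsOpen (φ.ker : Set U) := by
      apply Subgroup.isOpen_mono (H₁ := V) _ hVo
      intro v hv
      rw [MonoidHom.mem_ker]
      change toMu (β.B v s) = 1
      rw [hβ v hv]; rfl
    obtain ⟨L', hL', hLo', h'⟩ := a.torsion φ hφ
    refine ⟨L ⊓ L', inferInstance, ?_, ?_⟩
    · rw [Subgroup.coe_inf]; exact hLo.inter hLo'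
    · intro x hx r hr
      rcases Finset.mem_insert.mp hr with rfl | hr
      · exact h' x hx.2
      · exact h x hx.1 r hr

theorem AlbaneseData.cupBounded [ContinuousMul U] (D : AlbaneseData U) (hfg : DiscreteFG U) :
    CupBounded U (D.coh.e * 2 * D.hom.t) := by
  intro V hV hVo β f hβ hf hbd g h
  obtain ⟨a, H⟩ := D
  -- the form `t B` comes from `Λ`
  set B : U → U → Mu := fun x y => toMu (a.t • β.B x y) with hB
  have hform : IsForm a B := by
    obtain ⟨S, hS⟩ := hfg V hV hVo
    obtain ⟨L, hL, hLo, hLS⟩ := exists_level a V hVo β hβ S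
    refine ⟨⟨fun x y z => ?_, fun x y z => ?_, fun x => ?_⟩, ⟨L, hL, hLo, ?_⟩⟩
    · simp only [hB, β.mul_left, smul_add, toMu_add]
    · simp only [hB, β.mul_right, smul_add, toMu_add]
    · simp only [hB, β.self, smul_zero]; rfl
    · intro x hx g
      let T : Subgroup U :=
        { carrier := {g | a.t • β.B x g = 0}
          one_mem' := by
            change a.t • β.B x 1 = 0
            rw [β.one_right, smul_zero]
          mul_mem' := by
            intro c b hc hb
            change a.t • β.B x (c * b) = 0
            rw [β.mul_right, smul_add, show a.t • β.B x c = 0 from hc,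
              show a.t • β.B x b = 0 from hb, add_zero]
          inv_mem' := by
            intro c hc
            change a.t • β.B x c⁻¹ = 0
            rw [β.inv_right, smul_neg, show a.t • β.B x c = 0 from hc, neg_zero] }
      have hT : (⊤ : Subgroup U) ≤ T := by
        rw [← hS, sup_le_iff, Subgroup.closure_le]
        refine ⟨fun s hs => hLS x hx s hs, fun v hv => ?_⟩
        change a.t • β.B x v = 0
        rw [β.swap v x, hβ v hv, neg_zero, smul_zero]
      have h1 : a.t • β.B x g = 0 := hT (Subgroup.mem_top g)
      simp only [hB, h1]; rfl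
  have hcob : IsCoboundary B := by
    refine ⟨V, hV, hVo, fun v hv g => ?_, fun x => toMu (a.t • f x), fun g v hv => ?_,
      fun g h => ?_⟩
    · simp only [hB, hβ v hv, smul_zero]; rfl
    · simp only [hf g v hv]
    · change toMu (a.t • f g + a.t • f h) = toMu (a.t • β.B g h + a.t • f (g * h))
      rw [← hbd g h, ← smul_add, ← smul_add, sub_add_cancel]
  have h1 := H.pull_coboundary _ hform hcob
  have h2 : H.cl B ^ (H.e * 2) = 1 := by
    rw [mul_comm, pow_mul, ← H.tr_res_pull, h1, map_one, map_one]
  have h3 := H.cl_pow B hform _ h2 g h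
  change (H.e * 2) • (a.t • β.B g h) = 0 at h3
  rw [mul_smul]
  exact h3

/-- Smooth projective varieties over an algebraically closed complete non-archimedean field of
characteristic zero with their tempered fundamental groups: the published facts which are used. -/
structure TemperedWorld where
  /-- smooth projective varieties (with a base point) -/
  Var : Type*
  /-- `π₁^temp(X^Ber)` -/
  π : Var → Type*
  [grp : ∀ X, Group (π X)]
  [top : ∀ X, TopologicalSpace (π X)]
  [tgrp : ∀ X, IsTopologicalGroup (π X)]
  /-- the tempered fundamental group is prodiscrete -/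
  basis : ∀ X, NormalBasis (π X)
  /-- discrete quotients of the tempered fundamental group are finitely generated -/
  fg : ∀ X, DiscreteFG (π X)
  /-- the analytification is `K`-analytically special -/
  Special : Var → Prop
  /-- the Albanese map is surjective -/
  AlbSurj : Var → Prop
  /-- open subgroups of finite index are the tempered fundamental groups of finite étale covers;
  a finite étale cover of a special variety is special -/
  cover : ∀ X (U : Subgroup (π X)), IsOpen (U : Set (π X)) → U.FiniteIndex →
    ∃ Y, (Special X → Special Y) ∧ Nonempty (π Y ≃ₜ* U)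
  /-- the Albanese map of a special variety is surjective -/
  albSurj_of_special : ∀ X, Special X → AlbSurj X
  /-- the Albanese map of a variety -/
  data : ∀ X, AlbSurj X → AlbaneseData (π X)

attribute [instance] TemperedWorld.grp TemperedWorld.top TemperedWorld.tgrp

theorem CupBounded.equiv {G H : Type*} [Group G] [TopologicalSpace G] [Group H]
    [TopologicalSpace H] {d : ℕ} (e : G ≃ₜ* H) (h : CupBounded G d) : CupBounded H d := by
  intro V hV hVo β f hβ hf hbd a b
  have h1 := h (V.comap (e : G →* H)) inferInstance (hVo.preimage e.continuous)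
    (β.comap (e : G →* H)) (fun x => f (e x)) (fun v hv g => hβ _ hv _)
    (fun g v hv => by
      simp only [map_mul]; exact hf _ _ hv)
    (fun g k => by
      change f (e g) + f (e k) - f (e (g * k)) = β.B (e g) (e k)
      rw [map_mul]; exact hbd _ _) (e.symm a) (e.symm b)
  have h2 : β.B (e (e.symm a)) (e (e.symm b)) = β.B a b := by
    rw [ContinuousMulEquiv.apply_symm_apply, ContinuousMulEquiv.apply_symm_apply]
  rw [← h2]
  exact h1

theorem NormalBasis.subgroup {G : Type*} [Group G] [TopologicalSpace G] (hb : NormalBasis G)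
    (U : Subgroup G) : NormalBasis U := by
  intro W hW
  rw [nhds_induced, Filter.mem_comap] at hW
  obtain ⟨W', hW', hWW'⟩ := hW
  obtain ⟨V, hV, hVo, hVW⟩ := hb W' hW'
  exact ⟨V.subgroupOf U, inferInstance, hVo.preimage continuous_subtype_val,
    fun x hx => hWW' (hVW hx)⟩

theorem TemperedWorld.exists_cupBounded (W : TemperedWorld) (X : W.Var) (hX : W.Special X)
    (U : Subgroup (W.π X)) (hU : IsOpen (U : Set (W.π X))) (hf : U.FiniteIndex) :
    ∃ d : ℕ, 0 < d ∧ CupBounded U d := by
  obtain ⟨Y, hY, ⟨e⟩⟩ := W.cover X U hU hf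
  let D := W.data Y (W.albSurj_of_special Y (hY hX))
  exact ⟨D.coh.e * 2 * D.hom.t, Nat.mul_pos (Nat.mul_pos D.coh.e_pos two_pos) D.hom.t_pos,
    CupBounded.equiv e (D.cupBounded (W.fg Y))⟩

/-! ### The notions of the theorem -/

/-- If `U/N` is nilpotent of class at most `c + 1`, its commutator subgroup is killed by `d ^ c`. -/
def ExponentBound (U : Type*) [Group U] [TopologicalSpace U] (d : ℕ) : Prop :=
  ∀ (N : Subgroup U) (_ : N.Normal), IsClosed (N : Set U) → ∀ c : ℕ,
    (⊤ : Subgroup (U ⧸ N)).lowerCentralSeries (c + 1) = ⊥ →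
    ∀ x ∈ commutator (U ⧸ N), x ^ (d ^ c) = 1

/-- `N` is a closed normal subgroup of `U`, and `U/N` is nilpotent without elements `≠ 1` of order
dividing `d`. -/
structure Nilp {U : Type*} [Group U] [TopologicalSpace U] (N : Subgroup U) (d : ℕ) : Prop where
  closed : IsClosed (N : Set U)
  normal : N.Normal
  nilpotent : Group.IsNilpotent (U ⧸ N)
  torsion : ∀ x : U, x ^ d ∈ N → x ∈ N

/-- The group has a commutative open subgroup of finite index. -/
def VirtuallyAbelian (G : Type*) [Group G] [TopologicalSpace G] : Prop :=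
  ∃ H : Subgroup G, H.FiniteIndex ∧ IsOpen (H : Set G) ∧ ∀ x ∈ H, ∀ y ∈ H, x * y = y * x

theorem Nilp.comm_mem [ContinuousMul U] (hb : NormalBasis U) {d : ℕ} (hd : CupBounded U d)
    {N : Subgroup U} (hN : Nilp N d) (a b : U) : ⁅a, b⁆ ∈ N := by
  have := hN.normal
  refine comm_mem_of_nilpotent hb hd N hN.normal hN.closed hN.nilpotent (fun y hy => ?_) a b
  obtain ⟨x, rfl⟩ := QuotientGroup.mk'_surjective N y
  rw [← map_pow, QuotientGroup.mk'_apply, QuotientGroup.eq_one_iff] at hy
  rw [QuotientGroup.mk'_apply, QuotientGroup.eq_one_iff]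
  exact hN.torsion x hy

end Pool.Agent.Run7.h293.TP
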